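import Mathlib

set_option autoImplicit false

namespace Pool.Agent.Results.MP_071c0d_co.HalfBound

open Finset

/-- Two edges share a vertex. -/
def Share {W : Type} (e f : Sym2 W) : Prop := ∃ x, x ∈ e ∧ x ∈ f

/-- `c i` is the First-Fit colour of the `i`-th edge: the least positive integer not used on an
earlier adjacent edge. -/
def FirstFit {W : Type} {t : ℕ} (L : Fin t → Sym2 W) (c : Fin t → ℕ) : Prop :=
  ∀ i, IsLeast {n | 1 ≤ n ∧ ∀ j < i, Share (L j) (L i) → c j ≠ n} (c i)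

/-- Builder can present `t` distinct non-loop edges whose First-Fit colouring contains a rainbow
copy of `H`. -/
def Wins {V : Type} (H : SimpleGraph V) (t : ℕ) : Prop :=
  ∃ (W : Type) (L : Fin t → Sym2 W) (c : Fin t → ℕ), Function.Injective L ∧
    (∀ i, ¬ (L i).IsDiag) ∧ FirstFit L c ∧
    ∃ (φ : V ↪ W) (ψ : H.edgeSet → Fin t), (∀ e, L (ψ e) = e.1.map φ) ∧
      Function.Injective fun e => c (ψ e)

theorem sorted {J α : Type} [Fintype J] [LinearOrder α] (g : J → α) :
    ∃ π : Fin (Fintype.card J) ≃ J, Monotone (g ∘ π) :=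
  ⟨(Tuple.sort (g ∘ (Fintype.equivFin J).symm)).trans (Fintype.equivFin J).symm,
    Tuple.monotone_sort (g ∘ (Fintype.equivFin J).symm)⟩

open Classical in
theorem core {V : Type} [Fintype V] (H : SimpleGraph V) (C : Finset V) (a : H.edgeSet → V)
    (ha : ∀ e, a e ∈ C ∧ a e ∈ e.1) (key : V → ℤ) :
    ∃ t, Wins H t ∧ t ≤ #{p ∈ C ×ˢ (univ : Finset H.edgeSet) | key (a p.2) ≤ key p.1} := by
  obtain ⟨ρ, hρ⟩ := sorted fun e : H.edgeSet => key (a e)
  let P := {p : V × H.edgeSet // p.1 ∈ C ∧ key (a p.2) ≤ key p.1 ∧ p.1 ∉ p.2.1}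
  let J := H.edgeSet ⊕ P
  let W := V ⊕ (V × H.edgeSet)
  let ed : J → Sym2 W := Sum.elim (fun e => e.1.map Sum.inl) fun p => s(Sum.inl p.1.1, Sum.inr p.1)
  let lab : J → H.edgeSet := Sum.elim id fun p => p.1.2
  let own : J → V := Sum.elim a fun p => p.1.1
  have p1 : ∀ j, Sum.inl (own j) ∈ ed j ∧ own j ∈ C ∧ key (a (lab j)) ≤ key (own j) := by
    rintro (e | p)
    · exact ⟨Sym2.mem_map.2 ⟨a e, (ha e).2, rfl⟩, (ha e).1, le_rfl⟩
    · exact ⟨Sym2.mem_mk_left _ _, p.2.1, p.2.2.1⟩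
  have p2 : ∀ u ∈ C, ∀ f, key (a f) ≤ key u → ∃ j, lab j = f ∧ Sum.inl u ∈ ed j := by
    intro u hu f hf
    by_cases h : u ∈ f.1
    · exact ⟨.inl f, rfl, Sym2.mem_map.2 ⟨u, h, rfl⟩⟩
    · exact ⟨.inr ⟨(u, f), hu, hf, h⟩, rfl, Sym2.mem_mk_left _ _⟩
  have p3 : ∀ j j', lab j = lab j' → Share (ed j) (ed j') → j = j' := by
    rintro (e | ⟨⟨u, f⟩, h⟩) (e' | ⟨⟨u', f'⟩, h'⟩) hl ⟨x, h1, h2⟩
    · exact congrArg _ hl
    · obtain rfl : e = f' := hl
      obtain ⟨y, hy, rfl⟩ := Sym2.mem_map.1 h1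
      rcases Sym2.mem_iff.1 h2 with h3 | h3
      · exact absurd (Sum.inl.inj h3 ▸ hy) h'.2.2
      · cases h3
    · obtain rfl : f = e' := hl
      obtain ⟨y, hy, rfl⟩ := Sym2.mem_map.1 h2
      rcases Sym2.mem_iff.1 h1 with h3 | h3
      · exact absurd (Sum.inl.inj h3 ▸ hy) h.2.2
      · cases h3
    · obtain rfl : f = f' := hl
      have : u = u' := by
        rcases Sym2.mem_iff.1 h1 with rfl | rfl <;> rcases Sym2.mem_iff.1 h2 with h3 | h3 <;>
          cases h3 <;> rfl
      subst this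
      rfl
  have p4 : Function.Injective ed := by
    rintro (e | p) (e' | p') h
    · exact congrArg _ (Subtype.ext (Sym2.map.injective Sum.inl_injective h))
    · have : Sum.inr p'.1 ∈ ed (.inl e) := h ▸ Sym2.mem_mk_right _ _
      obtain ⟨y, -, hy⟩ := Sym2.mem_map.1 this
      cases hy
    · have : Sum.inr p.1 ∈ ed (.inl e') := h ▸ Sym2.mem_mk_right _ _
      obtain ⟨y, -, hy⟩ := Sym2.mem_map.1 this
      cases hy
    · have : Sum.inr p.1 ∈ ed (.inr p') := h ▸ Sym2.mem_mk_right _ _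
      rcases Sym2.mem_iff.1 this with h3 | h3
      · cases h3
      · exact congrArg _ (Subtype.ext (Sum.inr.inj h3))
  let col : J → ℕ := fun j => (ρ.symm (lab j)).val + 1
  obtain ⟨π, hπ⟩ := sorted col
  refine ⟨Fintype.card J, ⟨W, ed ∘ π, col ∘ π, p4.comp π.injective, ?_, fun i => ⟨⟨?_, ?_⟩, ?_⟩,
    ⟨Sum.inl, Sum.inl_injective⟩, fun e => π.symm (.inl e), fun e => ?_, ?_⟩, ?_⟩
  · intro i
    simp only [Function.comp]
    rcases π i with e | p
    · intro h
      exact H.not_isDiag_of_mem_edgeSet e.2 ((Sym2.isDiag_map Sum.inl_injective).1 h)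
    · intro h
      cases Sym2.mk_isDiag_iff.1 h
  · exact Nat.le_add_left _ _
  · intro j hj hs hc
    have := p3 _ _ (ρ.symm.injective (Fin.ext (Nat.succ_injective hc))) hs
    exact hj.ne (π.injective this)
  · rintro n ⟨h1, h2⟩
    by_contra hlt
    have hlt' : n < (ρ.symm (lab (π i))).val + 1 := not_le.1 hlt
    let m : Fin (Fintype.card H.edgeSet) := ⟨n - 1, by have := (ρ.symm (lab (π i))).2; omega⟩
    have hm : key (a (ρ m)) ≤ key (a (lab (π i))) := by
      have := hρ (show m ≤ ρ.symm (lab (π i)) from by show n - 1 ≤ _; omega)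
      simpa using this
    obtain ⟨j, hj1, hj2⟩ := p2 _ (p1 (π i)).2.1 (ρ m) (hm.trans (p1 (π i)).2.2)
    have hc : col j = n := by
      show (ρ.symm (lab j)).val + 1 = n
      rw [hj1, Equiv.symm_apply_apply]
      show n - 1 + 1 = n
      omega
    refine h2 (π.symm j) ?_ ⟨_, by simpa using hj2, (p1 (π i)).1⟩ (by simpa using hc)
    by_contra hge
    have := hπ (not_lt.1 hge)
    simp only [Function.comp, Equiv.apply_symm_apply, hc] at this
    exact hlt this
  · simp [ed]
  · intro e f h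
    simp only [Function.comp, Equiv.apply_symm_apply] at h
    exact ρ.symm.injective (Fin.ext (Nat.succ_injective h))
  · rw [← card_univ]
    refine card_le_card_of_injOn (fun j => (own j, lab j)) (fun j _ => ?_) ?_
    · simpa using (p1 j).2
    · intro j _ j' _ h
      simp only [Prod.mk.injEq] at h
      exact p3 j j' h.2 ⟨_, (p1 j).1, h.1 ▸ (p1 j').1⟩

theorem result (V : Type) [Fintype V] (H : SimpleGraph V) :
    ∃ t : ℕ, Wins H t ∧ 2 * t ≤ (H.vertexCoverNum.toNat + 1) * H.edgeSet.ncard := by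
  classical
  obtain ⟨s, hs, hc⟩ := H.vertexCoverNum_exists
  have hτ : H.vertexCoverNum.toNat = #s.toFinset := by
    rw [← hs, Set.encard_eq_coe_toFinset_card]; rfl
  have hk : H.edgeSet.ncard = #(univ : Finset H.edgeSet) := by
    rw [← Nat.card_coe_set_eq, Nat.card_eq_fintype_card, card_univ]
  have hex : ∀ e : H.edgeSet, ∃ v, v ∈ s.toFinset ∧ v ∈ e.1 := by
    rintro ⟨e, he⟩
    induction e using Sym2.ind with
    | h x y =>
      rcases hc he with h | h
      · exact ⟨x, by simpa using h, Sym2.mem_mk_left _ _⟩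
      · exact ⟨y, by simpa using h, Sym2.mem_mk_right _ _⟩
  choose a ha using hex
  let key : V → ℤ := fun v => (Fintype.equivFin V v).val
  have hkey : Function.Injective key := fun u v h =>
    (Fintype.equivFin V).injective (Fin.ext (Int.natCast_inj.1 h))
  obtain ⟨t, h1, h2⟩ := core H s.toFinset a ha key
  obtain ⟨t', h3, h4⟩ := core H s.toFinset a ha fun v => - key v
  have h5 := card_union_add_card_inter
    {p ∈ s.toFinset ×ˢ (univ : Finset H.edgeSet) | key (a p.2) ≤ key p.1}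
    {p ∈ s.toFinset ×ˢ (univ : Finset H.edgeSet) | - key (a p.2) ≤ - key p.1}
  have h6 : #({p ∈ s.toFinset ×ˢ (univ : Finset H.edgeSet) | key (a p.2) ≤ key p.1} ∪
      {p ∈ s.toFinset ×ˢ (univ : Finset H.edgeSet) | - key (a p.2) ≤ - key p.1}) ≤
      #s.toFinset * #(univ : Finset H.edgeSet) := by
    rw [← card_product]
    exact card_le_card (union_subset (filter_subset _ _) (filter_subset _ _))
  have h7 : #({p ∈ s.toFinset ×ˢ (univ : Finset H.edgeSet) | key (a p.2) ≤ key p.1} ∩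
      {p ∈ s.toFinset ×ˢ (univ : Finset H.edgeSet) | - key (a p.2) ≤ - key p.1}) ≤
      #(univ : Finset H.edgeSet) := by
    refine card_le_card_of_injOn Prod.snd (fun _ _ => by simp) ?_
    intro p hp q hq h
    simp only [coe_inter, coe_filter, Set.mem_inter_iff, Set.mem_ofPred_eq] at hp hq
    have e1 : a p.2 = p.1 := hkey (by omega)
    have e2 : a q.2 = q.1 := hkey (by omega)
    exact Prod.ext (by rw [← e1, ← e2, h]) h
  rw [hτ, hk, add_mul, one_mul]
  rcases le_total t t' with h | h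
  · exact ⟨t, h1, by omega⟩
  · exact ⟨t', h3, by omega⟩

end Pool.Agent.Results.MP_071c0d_co.HalfBound
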